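import Pool.Agent.AT5.Stmts2

/-!
# Squad AT5, row VJ5: the values of the fixed characters
-/

open scoped BigOperators

noncomputable section

namespace Pool.Agent.PP.T5.H17

open Pool.Agent.Helper51_AWC Pool.Agent.Helper79_WRA Pool.Agent.PP Pool.Agent.PP.KF
open Pool.Agent.PP.K9 Pool.Agent.PP.K9.H97 Pool.Agent.PP.H75 Pool.Agent.PP.T3
open Pool.Agent.PP.T2 Pool.Agent.PP.T5

theorem vj5 (ker : KerStmt) : Vj5Stmt := by
  intro ℓ _ M _ hM G _ _ N hN u hu b hb χ hχ hfix s hs hsr j j' hj hjj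
  obtain ⟨k, hk⟩ := hN.gen j j' hj hjj
  have hcw : ∀ i : ℕ, ∀ c ∈ Cu u, u ^ i * c = c * u ^ i := by
    intro i c hc
    have hcomm : Commute u c := (Subgroup.mem_centralizer_singleton_iff.1 hc).symm
    exact (hcomm.pow_left i).eq
  rw [ker ℓ M hM G u (u ^ j) (hcw j) b hb s hs hsr χ hχ,
    ker ℓ M hM G u (u ^ j') (hcw j') b hb s hs hsr χ hχ]
  congr 1
  refine finsum_congr fun c => finsum_congr fun hc => ?_
  congr 1
  have key : ∀ i : ℕ, χ ((u ^ j) ^ N ^ i * c) = χ (u ^ j * c) := by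
    intro i
    induction i with
    | zero => rw [pow_zero, pow_one]
    | succ i ih =>
      have hcomm : Commute u c := (Subgroup.mem_centralizer_singleton_iff.1 hc.1).symm
      have h1 : Commute ((u ^ j) ^ N ^ i) c := (hcomm.pow_left j).pow_left _
      rw [← ih, ← hfix ((u ^ j) ^ N ^ i * c), h1.mul_pow, hN.reg c hc.2, ← pow_mul (u ^ j),
        ← pow_succ]
  rw [← hk u hu, key]

end Pool.Agent.PP.T5.H17
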